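import Pool.Agent.R167.VN.Data

/-! The kernel check. -/

namespace Pool.Agent.R167.VN

set_option maxRecDepth 100000 in
theorem rows_ok : rows cons cons cert = true := by decide +kernel

end Pool.Agent.R167.VN
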