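import Mathlib

/-! Integer data of the 49 neighbours (scale 100000) and the kernel check. -/

set_option autoImplicit false

namespace Pool.Agent.R167.VN

/-- coordinates (times 100000) of the 49 neighbours of the centre at the origin -/
def pts : List (ℤ × ℤ × ℤ) := [
  (221133, -165955, -282107),
  (330078, 223404, 33135),
  (245007, -308795, 64139),
  (197163, -15018, 329200),
  (44472, 277720, 202848),
  (-289699, -254602, 103322),
  (137708, 261144, -263435),
  (-273256, -79016, 197707),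
  (93742, -338311, 191640),
  (361899, -147242, 85533),
  (-104293, -39484, -327983),
  (156888, -327177, -168249),
  (-196839, 32279, 346663),
  (100155, 158226, 353373),
  (-173448, -222255, -283536),
  (172526, 292403, -68965),
  (-93163, 202193, 326862),
  (-314893, 242441, 32297),
  (314432, 175828, -160514),
  (220829, 183587, 195884),
  (45799, -343366, -2692),
  (-378906, -111961, -9165),
  (345317, -32928, -199095),
  (41040, 395398, 41135),
  (-96620, -277440, 183565),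
  (8636, 368829, -154452),
  (-144855, 332461, 168679),
  (277026, -186922, -91199),
  (27301, -214063, -270984),
  (193246, 69563, -278960),
  (-251380, 91753, -293972),
  (-92981, 223877, -247572),
  (55391, -205105, 335990),
  (-2147, -13622, 346136),
  (85962, -61142, -385798),
  (-382993, 57762, 99606),
  (-238018, 157632, 196327),
  (-273560, 241657, -163409),
  (-139307, 315701, -30561),
  (-70493, -354238, -167083),
  (337217, 20976, 191006),
  (28975, 130317, -375563),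
  (-152004, -369646, 14925),
  (-241667, -229027, -95631),
  (-327874, 62601, -92636),
  (-309783, -89296, -221574),
  (209625, -176538, 211877),
  (-139249, -159123, 339102),
  (345338, 28405, -8711)]

/-- a constraint `a x + b y + c z ≤ d`, coded as `(a, b, c, d)` -/
abbrev Con := ℤ × ℤ × ℤ × ℤ

/-- the bisector constraint of a neighbour -/
def bis (p : ℤ × ℤ × ℤ) : Con :=
  (2 * p.1, 2 * p.2.1, 2 * p.2.2, p.1 * p.1 + p.2.1 * p.2.1 + p.2.2 * p.2.2)

/-- the constraints of a large cube -/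
def cube : List Con :=
  [(1, 0, 0, 500000), (-1, 0, 0, 500000), (0, 1, 0, 500000), (0, -1, 0, 500000),
    (0, 0, 1, 500000), (0, 0, -1, 500000)]

/-- the constraints -/
def cons : List Con := pts.map bis ++ cube

/-- the point `(X0, X1, X2) / D1` is the upper end and `(Y0, Y1, Y2) / D2` the lower end of the
feasible interval on a line of direction `m`: the interval is empty or its ends are short -/
def ends (m0 m1 m2 D1 X0 X1 X2 D2 Y0 Y1 Y2 : ℤ) : Bool :=
  decide (0 < D1) && (decide (D2 < 0) &&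
    (decide ((m0 * Y0 + m1 * Y1 + m2 * Y2) * D1 < (m0 * X0 + m1 * X1 + m2 * X2) * D2) ||
      (decide (X0 * X0 + X1 * X1 + X2 * X2 < 40000000000 * (D1 * D1)) &&
        decide (Y0 * Y0 + Y1 * Y1 + Y2 * Y2 < 40000000000 * (D2 * D2)))))

/-- numerators and denominator of the point common to the line and the plane `c` -/
def dn (m0 m1 m2 : ℤ) (c : Con) : ℤ := m0 * c.1 + m1 * c.2.1 + m2 * c.2.2.1
def n0 (m0 _m1 _m2 _e0 e1 e2 : ℤ) (c : Con) : ℤ := c.2.2.2 * m0 + (c.2.1 * e2 - c.2.2.1 * e1)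
def n1 (_m0 m1 _m2 e0 _e1 e2 : ℤ) (c : Con) : ℤ := c.2.2.2 * m1 + (c.2.2.1 * e0 - c.1 * e2)
def n2 (_m0 _m1 m2 e0 e1 _e2 : ℤ) (c : Con) : ℤ := c.2.2.2 * m2 + (c.1 * e1 - c.2.1 * e0)

/-- check for the line of direction `m` with the moment vector `e` -/
def line (m0 m1 m2 e0 e1 e2 : ℤ) (l k : Con) : Bool :=
  (decide (m0 = 0) && (decide (m1 = 0) && decide (m2 = 0))) ||
  ends m0 m1 m2 (dn m0 m1 m2 l) (n0 m0 m1 m2 e0 e1 e2 l) (n1 m0 m1 m2 e0 e1 e2 l)
    (n2 m0 m1 m2 e0 e1 e2 l) (dn m0 m1 m2 k) (n0 m0 m1 m2 e0 e1 e2 k) (n1 m0 m1 m2 e0 e1 e2 k)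
    (n2 m0 m1 m2 e0 e1 e2 k)

/-- check for the line common to the planes of `a` and `b` -/
def pairOk (a b l k : Con) : Bool :=
  line (a.2.1 * b.2.2.1 - a.2.2.1 * b.2.1) (a.2.2.1 * b.1 - a.1 * b.2.2.1)
    (a.1 * b.2.1 - a.2.1 * b.1) (b.2.2.2 * a.1 - a.2.2.2 * b.1)
    (b.2.2.2 * a.2.1 - a.2.2.2 * b.2.1) (b.2.2.2 * a.2.2.1 - a.2.2.2 * b.2.2.1) l k

/-- check for `a` and all planes of a list -/
def row (cs : List Con) (a : Con) : List Con → List (ℕ × ℕ) → Bool
  | [], _ => true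
  | _ :: _, [] => false
  | b :: t, q :: r => pairOk a b (cs.getD q.1 (0, 0, 0, 0)) (cs.getD q.2 (0, 0, 0, 0)) && row cs a t r

/-- check for all pairs of planes of a list -/
def rows (cs : List Con) : List Con → List (List (ℕ × ℕ)) → Bool
  | [], _ => true
  | _ :: _, [] => false
  | a :: t, r :: rs => row cs a t r && rows cs t rs

/-- the certificate -/
def cert : List (List (ℕ × ℕ)) := [
[(22, 18), (11, 27), (9, 40), (1, 18), (39, 42), (29, 34), (5, 42), (11, 2), (27, 48), (34, 28),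
(28, 27), (47, 8), (40, 48), (10, 28), (18, 29), (49, 48), (37, 34), (22, 29), (48, 22), (11,
27), (14, 28), (27, 29), (15, 29), (11, 20), (29, 41), (23, 29), (28, 29), (29, 27), (27, 28),
(34, 10), (41, 34), (8, 2), (2, 46), (29, 28), (45, 14), (30, 10), (41, 34), (29, 41), (28, 11),
(27, 48), (29, 34), (39, 11), (28, 39), (10, 28), (10, 28), (2, 27), (11, 8), (27, 22), (40,
48), (45, 35), (23, 29), (42, 11), (46, 27), (34, 30)],
[(48, 9), (40, 19), (19, 15), (3, 47), (15, 18), (12, 16), (9, 46), (48, 40), (41, 18), (22,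
27), (19, 16), (19, 4), (34, 22), (19, 48), (19, 4), (26, 23), (15, 48), (48, 15), (48, 9), (26,
17), (18, 48), (19, 15), (40, 32), (23, 15), (4, 23), (22, 48), (18, 22), (18, 48), (31, 6),
(15, 6), (40, 3), (3, 19), (18, 22), (4, 26), (4, 26), (38, 15), (23, 15), (22, 11), (48, 19),
(6, 18), (2, 9), (28, 0), (38, 15), (30, 6), (48, 40), (3, 33), (15, 19), (48, 20), (26, 17),
(23, 38), (20, 2), (33, 19), (10, 18)],
[(46, 9), (46, 40), (20, 24), (18, 22), (24, 8), (20, 46), (46, 27), (0, 11), (27, 20), (8, 32),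
(3, 40), (11, 39), (48, 18), (33, 46), (7, 8), (48, 27), (46, 40), (27, 46), (42, 5), (48, 27),
(40, 9), (20, 8), (48, 18), (46, 3), (46, 20), (11, 20), (27, 0), (11, 14), (27, 41), (8, 46),
(32, 46), (0, 11), (5, 24), (47, 12), (30, 14), (23, 9), (11, 20), (46, 9), (27, 0), (20, 8),
(39, 20), (20, 42), (39, 20), (20, 27), (8, 32), (9, 27), (9, 48), (21, 5), (23, 9), (20, 42),
(33, 46), (34, 11)],
[(13, 19), (32, 47), (19, 1), (47, 33), (46, 32), (40, 46), (27, 11), (9, 2), (33, 13), (33,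
19), (52, 8), (19, 1), (33, 13), (36, 16), (1, 40), (33, 40), (46, 8), (47, 7), (40, 9), (4,
19), (46, 32), (23, 19), (16, 13), (9, 46), (27, 11), (18, 40), (16, 26), (23, 25), (46, 33),
(46, 19), (22, 9), (12, 36), (33, 16), (16, 26), (13, 4), (20, 8), (19, 46), (1, 18), (8, 32),
(32, 47), (12, 36), (5, 47), (40, 33), (32, 33), (40, 46), (48, 22), (7, 33), (4, 23), (20, 8),
(33, 12), (49, 22)],
[(16, 7), (23, 15), (16, 36), (3, 13), (19, 40), (38, 31), (19, 40), (33, 16), (19, 33), (17,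
37), (23, 19), (33, 36), (26, 38), (15, 1), (15, 13), (3, 13), (36, 35), (18, 1), (38, 15), (33,
47), (38, 23), (36, 38), (48, 19), (15, 29), (15, 18), (37, 38), (38, 23), (13, 33), (13, 16),
(6, 15), (36, 26), (16, 26), (26, 38), (26, 23), (24, 47), (19, 3), (23, 6), (47, 12), (7, 36),
(17, 38), (17, 38), (19, 3), (33, 16), (1, 19), (48, 19), (35, 26), (31, 25), (13, 32), (33,
24), (23, 41)],
[(45, 30), (43, 24), (24, 42), (8, 2), (43, 45), (42, 39), (7, 47), (12, 33), (42, 43), (35,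
51), (7, 12), (21, 35), (11, 0), (33, 47), (24, 42), (43, 7), (42, 11), (35, 36), (7, 43), (37,
17), (35, 36), (20, 42), (39, 43), (28, 34), (45, 21), (30, 21), (47, 24), (7, 47), (28, 43),
(21, 7), (35, 7), (44, 35), (21, 17), (42, 43), (32, 24), (10, 45), (24, 43), (24, 7), (21, 7),
(43, 21), (32, 24), (7, 24), (9, 2), (48, 2), (25, 17), (35, 36), (27, 42), (13, 33), (43, 10)],
[(17, 35), (22, 9), (22, 18), (31, 41), (34, 0), (23, 26), (15, 4), (41, 34), (29, 31), (4, 23),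
(38, 31), (29, 15), (1, 15), (34, 11), (31, 30), (29, 18), (15, 25), (28, 52), (15, 31), (23,
25), (29, 22), (34, 29), (31, 15), (31, 41), (15, 29), (40, 1), (13, 4), (41, 29), (17, 37),
(25, 38), (25, 31), (25, 31), (41, 34), (18, 1), (31, 29), (41, 34), (45, 10), (37, 31), (30,
41), (18, 40), (4, 23), (29, 18), (9, 48), (37, 31), (23, 26), (28, 11), (33, 4), (41, 34)],
[(47, 24), (46, 8), (43, 21), (20, 42), (36, 33), (12, 33), (43, 21), (26, 4), (36, 12), (35,
36), (26, 4), (12, 13), (24, 5), (43, 44), (27, 20), (26, 16), (47, 5), (17, 38), (36, 16), (24,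
20), (5, 43), (45, 30), (21, 44), (44, 35), (47, 24), (12, 47), (14, 21), (44, 36), (35, 12),
(44, 35), (17, 36), (5, 43), (3, 47), (21, 30), (24, 5), (5, 21), (21, 35), (21, 44), (32, 24),
(33, 24), (3, 47), (48, 47), (30, 44), (38, 36), (20, 11), (13, 33), (21, 45)],
[(46, 2), (20, 39), (2, 20), (47, 32), (32, 3), (39, 42), (1, 9), (47, 32), (7, 47), (9, 2), (3,
46), (46, 24), (42, 5), (9, 2), (13, 3), (20, 46), (40, 1), (12, 16), (2, 20), (11, 20), (27,
0), (14, 42), (20, 10), (24, 46), (24, 32), (11, 20), (24, 7), (47, 12), (21, 5), (12, 16), (20,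
24), (46, 9), (0, 11), (20, 24), (42, 24), (42, 21), (20, 42), (24, 20), (24, 32), (46, 9), (9,
18), (5, 24), (13, 3), (39, 14), (32, 13), (11, 28)],
[(0, 27), (27, 2), (46, 33), (3, 40), (27, 11), (1, 48), (3, 13), (13, 40), (48, 22), (40, 48),
(27, 2), (42, 8), (48, 27), (19, 1), (8, 46), (15, 48), (13, 40), (48, 46), (27, 11), (48, 22),
(54, 34), (6, 29), (2, 46), (46, 3), (22, 0), (46, 33), (3, 13), (48, 18), (23, 1), (11, 2),
(46, 48), (22, 27), (2, 8), (39, 20), (39, 43), (11, 39), (27, 48), (8, 46), (46, 27), (48, 18),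
(8, 24), (38, 1), (20, 2), (33, 3), (22, 34)],
[(28, 0), (35, 45), (4, 38), (43, 28), (6, 31), (37, 30), (30, 44), (29, 41), (1, 41), (39, 28),
(45, 43), (34, 29), (25, 31), (43, 14), (41, 31), (38, 37), (28, 0), (14, 34), (34, 41), (31,
44), (41, 30), (14, 39), (21, 5), (28, 29), (44, 45), (30, 44), (31, 30), (31, 30), (14, 28),
(22, 48), (29, 31), (14, 39), (45, 14), (30, 45), (44, 43), (11, 2), (45, 5), (34, 29), (22,
48), (35, 45), (23, 31), (39, 20), (7, 33), (29, 18)],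
[(20, 47), (3, 9), (28, 39), (18, 0), (33, 2), (45, 44), (22, 0), (9, 27), (28, 27), (39, 42),
(27, 0), (15, 0), (39, 20), (0, 34), (48, 1), (20, 28), (27, 20), (27, 0), (28, 14), (34, 28),
(8, 2), (32, 2), (0, 28), (39, 42), (42, 7), (28, 30), (34, 31), (28, 20), (9, 27), (0, 34),
(39, 20), (39, 20), (45, 39), (14, 39), (20, 2), (20, 8), (27, 0), (27, 48), (45, 39), (15, 0),
(7, 20), (33, 2), (31, 28)],
[(16, 33), (7, 21), (23, 16), (36, 33), (7, 36), (4, 1), (16, 13), (47, 24), (7, 35), (40, 3),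
(26, 16), (47, 7), (38, 26), (36, 16), (46, 32), (39, 5), (23, 15), (44, 36), (17, 36), (33,
47), (36, 7), (21, 45), (7, 36), (7, 33), (35, 17), (36, 26), (42, 5), (13, 33), (17, 36), (24,
7), (5, 7), (35, 36), (21, 35), (33, 32), (33, 7), (13, 40), (40, 3), (45, 35), (26, 23), (24,
42), (3, 33), (35, 44)],
[(47, 5), (4, 19), (33, 4), (16, 26), (15, 1), (4, 33), (3, 8), (12, 16), (19, 48), (4, 19),
(32, 33), (23, 15), (16, 4), (40, 9), (9, 3), (15, 18), (17, 26), (4, 23), (3, 33), (19, 4),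
(19, 48), (12, 16), (33, 16), (26, 38), (26, 4), (8, 32), (19, 3), (23, 15), (24, 33), (5, 7),
(16, 17), (35, 36), (3, 33), (33, 12), (19, 40), (48, 40), (12, 35), (4, 23), (8, 32), (33, 47),
(15, 18)],
[(6, 41), (35, 21), (30, 45), (28, 34), (22, 34), (43, 39), (45, 43), (28, 34), (31, 30), (43,
42), (10, 31), (37, 17), (11, 28), (43, 10), (34, 10), (10, 45), (10, 30), (42, 39), (47, 24),
(28, 10), (45, 21), (45, 35), (30, 45), (30, 37), (43, 28), (11, 27), (28, 10), (43, 39), (10,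
28), (10, 45), (10, 43), (39, 2), (43, 42), (28, 0), (28, 0), (36, 35), (23, 30), (8, 39), (47,
33), (34, 41)],
[(4, 23), (23, 38), (29, 48), (1, 4), (27, 48), (38, 44), (29, 18), (4, 38), (32, 19), (38, 31),
(4, 23), (18, 48), (34, 29), (6, 18), (31, 6), (25, 6), (3, 19), (13, 4), (6, 29), (23, 38),
(26, 23), (38, 25), (23, 25), (28, 29), (1, 19), (31, 6), (29, 0), (31, 10), (38, 37), (31, 6),
(1, 40), (13, 4), (18, 1), (48, 9), (38, 44), (23, 35), (18, 27), (13, 4), (6, 34)],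
[(36, 26), (4, 1), (4, 13), (33, 47), (7, 36), (1, 19), (26, 4), (33, 47), (26, 23), (36, 4),
(9, 3), (5, 7), (15, 4), (17, 37), (38, 26), (33, 12), (4, 36), (41, 25), (7, 36), (33, 4), (17,
26), (36, 26), (42, 12), (19, 13), (26, 25), (47, 12), (7, 36), (36, 17), (35, 36), (3, 33),
(33, 12), (19, 13), (48, 13), (35, 36), (25, 23), (20, 47), (46, 33), (37, 38)],
[(25, 38), (38, 4), (5, 42), (35, 44), (31, 6), (38, 26), (7, 35), (31, 38), (38, 36), (41, 31),
(44, 30), (31, 38), (44, 37), (37, 38), (12, 47), (16, 36), (30, 37), (36, 44), (38, 44), (44,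
38), (44, 36), (43, 44), (26, 13), (37, 31), (35, 21), (21, 44), (36, 38), (44, 37), (33, 36),
(36, 7), (38, 23), (23, 1), (21, 43), (15, 23), (20, 42), (16, 33), (30, 34)],
[(1, 15), (22, 27), (30, 41), (29, 48), (1, 15), (2, 8), (15, 6), (4, 23), (22, 48), (29, 0),
(15, 48), (6, 41), (6, 29), (48, 40), (40, 1), (29, 22), (17, 25), (4, 26), (25, 6), (15, 25),
(28, 0), (48, 1), (6, 29), (0, 11), (34, 28), (6, 31), (41, 10), (48, 40), (40, 3), (29, 15),
(9, 48), (37, 6), (15, 38), (22, 20), (33, 1), (10, 29)],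
[(40, 46), (12, 16), (1, 48), (4, 15), (32, 33), (23, 15), (4, 23), (48, 40), (0, 48), (1, 48),
(23, 25), (25, 15), (3, 33), (3, 13), (1, 22), (16, 36), (16, 4), (38, 23), (4, 23), (40, 2),
(48, 3), (6, 1), (8, 3), (24, 47), (17, 38), (4, 38), (40, 3), (3, 33), (1, 40), (48, 27), (36,
4), (23, 25), (20, 46), (33, 13), (41, 1)],
[(43, 42), (27, 11), (40, 2), (42, 8), (11, 34), (24, 12), (2, 11), (11, 39), (27, 0), (39, 45),
(28, 10), (24, 8), (24, 32), (11, 28), (42, 5), (7, 24), (45, 43), (43, 44), (28, 43), (46, 2),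
(34, 28), (43, 24), (39, 42), (43, 42), (39, 43), (8, 2), (24, 8), (2, 27), (1, 48), (21, 42),
(48, 27), (50, 42), (33, 32), (41, 28)],
[(28, 14), (38, 17), (7, 5), (44, 38), (17, 35), (20, 39), (43, 14), (45, 30), (45, 44), (30,
44), (47, 5), (7, 47), (14, 45), (44, 7), (35, 7), (44, 35), (44, 17), (42, 43), (47, 32), (45,
30), (5, 43), (7, 44), (43, 7), (43, 44), (32, 24), (7, 5), (20, 27), (20, 27), (51, 23), (38,
17), (42, 20), (7, 33), (10, 45)],
[(1, 18), (27, 2), (18, 6), (1, 18), (29, 48), (29, 0), (48, 27), (29, 34), (6, 29), (27, 46),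
(9, 3), (29, 0), (41, 30), (1, 26), (31, 29), (18, 25), (0, 11), (27, 48), (29, 34), (11, 20),
(0, 39), (30, 34), (34, 0), (27, 9), (2, 32), (27, 29), (40, 48), (34, 45), (18, 25), (11, 20),
(33, 3), (30, 10)],
[(4, 47), (38, 15), (4, 38), (15, 48), (41, 34), (6, 15), (38, 31), (38, 25), (13, 4), (4, 16),
(25, 6), (26, 17), (26, 38), (38, 31), (4, 15), (10, 25), (1, 19), (25, 6), (5, 35), (44, 38),
(17, 38), (37, 30), (19, 3), (4, 16), (15, 1), (48, 1), (21, 38), (45, 30), (19, 46), (4, 33),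
(25, 41)],
[(38, 36), (36, 12), (2, 20), (20, 39), (27, 20), (45, 5), (30, 5), (33, 46), (47, 32), (20,
28), (5, 7), (7, 47), (44, 35), (7, 36), (20, 42), (32, 46), (39, 42), (20, 43), (42, 5), (21,
7), (43, 5), (32, 8), (7, 33), (46, 9), (48, 9), (37, 35), (12, 47), (20, 28), (4, 33), (39,
42)],
[(23, 38), (22, 18), (41, 34), (31, 6), (37, 31), (38, 15), (19, 13), (4, 16), (41, 6), (17,
37), (26, 38), (38, 31), (15, 31), (10, 41), (15, 19), (31, 6), (45, 30), (37, 45), (38, 37),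
(37, 30), (40, 19), (26, 12), (18, 15), (18, 48), (35, 5), (33, 16), (54, 41), (4, 33), (10,
41)],
[(48, 4), (37, 10), (6, 23), (17, 37), (38, 25), (16, 12), (16, 36), (38, 41), (36, 17), (4,
38), (17, 38), (36, 4), (43, 50), (4, 13), (38, 25), (36, 5), (21, 17), (36, 17), (17, 37), (13,
16), (16, 12), (1, 4), (48, 4), (43, 17), (29, 23), (24, 7), (13, 16), (38, 31)],
[(0, 11), (22, 0), (0, 10), (29, 41), (2, 46), (46, 9), (29, 0), (39, 42), (33, 53), (41, 34),
(18, 22), (11, 20), (9, 48), (29, 0), (11, 20), (39, 20), (28, 45), (28, 14), (2, 9), (2, 32),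
(9, 22), (19, 48), (11, 39), (23, 15), (42, 5), (33, 3), (41, 34)],
[(0, 34), (10, 14), (41, 10), (20, 8), (24, 20), (29, 10), (14, 21), (45, 14), (10, 30), (31,
10), (43, 20), (27, 0), (34, 10), (43, 39), (14, 39), (10, 45), (10, 14), (20, 11), (39, 24),
(27, 0), (27, 48), (14, 35), (34, 25), (24, 20), (33, 20), (41, 31)],
[(41, 10), (6, 41), (27, 22), (40, 18), (10, 28), (31, 41), (25, 38), (31, 41), (6, 31), (28,
0), (48, 18), (31, 10), (39, 0), (14, 34), (41, 30), (41, 10), (22, 9), (27, 22), (22, 18), (9,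
48), (30, 10), (23, 26), (28, 0), (33, 18), (45, 10)],
[(10, 44), (21, 5), (36, 12), (10, 41), (37, 44), (17, 44), (31, 44), (31, 37), (45, 14), (18,
6), (10, 31), (43, 14), (45, 10), (31, 10), (44, 10), (14, 11), (7, 21), (41, 18), (29, 41),
(44, 7), (23, 38), (42, 20), (36, 33), (34, 22)],
[(38, 36), (16, 38), (10, 41), (37, 44), (38, 17), (38, 44), (25, 37), (14, 10), (6, 1), (10,
29), (43, 14), (30, 10), (37, 30), (30, 10), (6, 1), (17, 37), (29, 6), (9, 48), (35, 44), (23,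
4), (39, 10), (4, 26), (28, 11)],
[(24, 46), (2, 11), (47, 12), (12, 33), (47, 12), (12, 16), (20, 24), (3, 46), (27, 2), (8, 24),
(24, 5), (21, 7), (24, 5), (33, 24), (24, 33), (40, 46), (48, 46), (21, 44), (33, 4), (20, 39),
(33, 4), (8, 28)],
[(46, 2), (7, 12), (12, 16), (17, 16), (36, 16), (32, 24), (19, 3), (4, 13), (24, 47), (47, 5),
(35, 12), (47, 21), (3, 32), (24, 7), (40, 3), (40, 3), (7, 35), (16, 25), (20, 24), (23, 4),
(52, 39)],
[(44, 10), (17, 30), (31, 10), (41, 31), (10, 28), (0, 22), (29, 10), (14, 39), (14, 28), (30,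
10), (10, 28), (2, 0), (39, 28), (22, 29), (22, 48), (10, 45), (23, 25), (28, 20), (0, 27), (17,
36)],
[(44, 7), (44, 17), (17, 36), (5, 43), (13, 12), (44, 37), (5, 21), (7, 21), (7, 36), (21, 44),
(12, 32), (36, 7), (4, 36), (16, 13), (0, 45), (15, 23), (20, 42), (12, 33), (10, 44)],
[(17, 38), (17, 26), (5, 43), (16, 13), (17, 31), (7, 5), (7, 21), (35, 17), (35, 44), (33, 12),
(12, 7), (4, 19), (19, 16), (35, 14), (25, 23), (20, 7), (3, 33), (34, 17)],
[(31, 44), (45, 14), (15, 23), (30, 31), (44, 43), (44, 45), (38, 31), (44, 30), (16, 53), (17,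
35), (18, 25), (18, 48), (35, 24), (25, 23), (43, 45), (16, 33), (10, 34)],
[(37, 14), (23, 19), (31, 25), (21, 44), (44, 37), (17, 37), (44, 37), (4, 3), (12, 36), (15,
1), (48, 1), (17, 21), (1, 9), (21, 44), (26, 16), (10, 31)],
[(2, 9), (28, 10), (43, 20), (28, 20), (45, 43), (14, 43), (20, 2), (42, 24), (11, 0), (9, 27),
(44, 43), (31, 14), (32, 8), (24, 33), (41, 10)],
[(18, 48), (20, 8), (20, 42), (16, 26), (9, 39), (48, 3), (32, 3), (19, 46), (48, 22), (12, 35),
(23, 15), (20, 46), (33, 12), (48, 22)],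
[(14, 39), (45, 10), (31, 30), (30, 10), (27, 22), (21, 45), (29, 18), (29, 48), (44, 30), (23,
25), (39, 28), (33, 4), (42, 39)],
[(20, 24), (43, 21), (14, 43), (8, 20), (5, 24), (2, 20), (2, 48), (21, 17), (50, 17), (20, 27),
(47, 33), (39, 41)],
[(45, 21), (10, 44), (8, 42), (5, 24), (39, 28), (20, 27), (17, 26), (37, 38), (42, 20), (5,
33), (14, 10)],
[(43, 10), (7, 24), (7, 21), (41, 31), (41, 31), (32, 46), (37, 38), (42, 20), (3, 12), (34,
30)],
[(42, 20), (21, 5), (22, 34), (0, 22), (35, 12), (25, 23), (43, 20), (12, 7), (10, 29)],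
[(24, 32), (40, 9), (48, 9), (44, 7), (4, 23), (20, 8), (33, 16), (34, 2)],
[(40, 32), (48, 32), (21, 7), (26, 16), (20, 24), (13, 33), (14, 43)],
[(2, 5), (15, 25), (23, 38), (20, 42), (40, 12), (29, 10)],
[(0, 0), (1, 48), (20, 2), (3, 40), (48, 22)],
[(21, 17), (42, 20), (12, 33), (10, 44)],
[(0, 0), (4, 33), (31, 25)],
[(33, 32), (28, 39)],
[(0, 0)],
[]]

end Pool.Agent.R167.VN
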