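import Pool.Agent.R167.VN.Sound

/-! All points of the polyhedron have squared norm less than `40000000000`. -/

set_option autoImplicit false

namespace Pool.Agent.R167.VN

open Filter Topology Set

lemma lin_add_smul (c : Con) (x y z u v w e : ℝ) :
    lin c (x + e * u) (y + e * v) (z + e * w) = lin c x y z + e * lin c u v w := by
  unfold lin; ring

/-- the polyhedron as a set -/
def K : Set (ℝ × ℝ × ℝ) := {v | Feas cons v.1 v.2.1 v.2.2}

lemma mem_cube {c : Con} (h : c ∈ cube) : c ∈ cons := List.mem_append_right _ h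

lemma K_subset : K ⊆ Icc (-500000, -500000, -500000) (500000, 500000, 500000) := by
  rintro ⟨x, y, z⟩ h
  have h1 := h (1, 0, 0, 500000) (mem_cube (by simp [cube]))
  have h2 := h (-1, 0, 0, 500000) (mem_cube (by simp [cube]))
  have h3 := h (0, 1, 0, 500000) (mem_cube (by simp [cube]))
  have h4 := h (0, -1, 0, 500000) (mem_cube (by simp [cube]))
  have h5 := h (0, 0, 1, 500000) (mem_cube (by simp [cube]))
  have h6 := h (0, 0, -1, 500000) (mem_cube (by simp [cube]))
  simp only [lin] at h1 h2 h3 h4 h5 h6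
  push_cast at h1 h2 h3 h4 h5 h6
  refine ⟨⟨?_, ?_, ?_⟩, ⟨?_, ?_, ?_⟩⟩ <;> simp only <;> linarith

lemma lin_cont (c : Con) : Continuous fun v : ℝ × ℝ × ℝ => lin c v.1 v.2.1 v.2.2 := by
  unfold lin; fun_prop

lemma K_closed : IsClosed K := by
  have : K = ⋂ c ∈ cons, {v : ℝ × ℝ × ℝ | lin c v.1 v.2.1 v.2.2 ≤ c.2.2.2} := by
    ext v; simp [K, Feas]
  rw [this]
  exact isClosed_biInter fun c _ => isClosed_le (lin_cont c) continuous_const

lemma K_compact : IsCompact K := isCompact_Icc.of_isClosed_subset K_closed K_subset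

lemma perturb {x y z u v w : ℝ} (h : Feas cons x y z)
    (hw : ∀ c ∈ cons, lin c x y z = c.2.2.2 → lin c u v w = 0) :
    ∃ e : ℝ, 0 < e ∧ Feas cons (x + e * u) (y + e * v) (z + e * w) := by
  have key : ∀ c ∈ cons.toFinset, ∀ᶠ e : ℝ in 𝓝[>] 0,
      lin c (x + e * u) (y + e * v) (z + e * w) ≤ c.2.2.2 := by
    intro c hc
    rw [List.mem_toFinset] at hc
    rcases (h c hc).lt_or_eq with h1 | h1
    · have hc : ContinuousAt (fun e : ℝ => lin c x y z + e * lin c u v w) 0 := by fun_prop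
      have h2 : ∀ᶠ e : ℝ in 𝓝 0, lin c x y z + e * lin c u v w < c.2.2.2 :=
        hc.eventually_lt_const (by simpa using h1)
      filter_upwards [nhdsWithin_le_nhds h2] with e he
      rw [lin_add_smul]
      exact he.le
    · filter_upwards with e
      rw [lin_add_smul, hw c hc h1, h1]
      simp
  have h1 := (Finset.eventually_all cons.toFinset).2 key
  obtain ⟨e, he, hpos⟩ := (h1.and self_mem_nhdsWithin).exists
  exact ⟨e, hpos, fun c hc => he c (List.mem_toFinset.2 hc)⟩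

theorem short (x y z : ℝ) (h : Feas cons x y z) : x ^ 2 + y ^ 2 + z ^ 2 < 40000000000 := by
  obtain ⟨⟨a, b, c⟩, hK, hmax⟩ := K_compact.exists_isMaxOn ⟨(x, y, z), h⟩
    (f := fun v : ℝ × ℝ × ℝ => v.1 ^ 2 + v.2.1 ^ 2 + v.2.2 ^ 2)
    (by fun_prop)
  have hm := hmax (show (x, y, z) ∈ K from h)
  simp only [mem_setOf_eq] at hm
  refine lt_of_le_of_lt hm ?_
  have hK' : Feas cons a b c := hK
  -- no direction orthogonal to all tight normals
  have hno : ∀ u v w : ℝ, (∀ d ∈ cons, lin d a b c = d.2.2.2 → lin d u v w = 0) →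
      u ^ 2 + v ^ 2 + w ^ 2 = 0 := by
    have aux : ∀ u v w : ℝ, (∀ d ∈ cons, lin d a b c = d.2.2.2 → lin d u v w = 0) →
        0 ≤ a * u + b * v + c * w → u ^ 2 + v ^ 2 + w ^ 2 = 0 := by
      intro u v w hw hpos
      obtain ⟨e, he, hf⟩ := perturb hK' hw
      have := hmax (show (a + e * u, b + e * v, c + e * w) ∈ K from hf)
      simp only [mem_setOf_eq] at this
      have h1 : 0 ≤ e * (a * u + b * v + c * w) := by positivity
      have h2 : e ^ 2 * (u ^ 2 + v ^ 2 + w ^ 2) ≤ 0 := by nlinarith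
      have h3 : 0 < e ^ 2 := by positivity
      have h4 : 0 ≤ u ^ 2 + v ^ 2 + w ^ 2 := by positivity
      nlinarith
    intro u v w hw
    rcases le_total 0 (a * u + b * v + c * w) with h1 | h1
    · exact aux u v w hw h1
    · have := aux (-u) (-v) (-w) (fun d hd hd' => by
        have := hw d hd hd'
        unfold lin at *; linarith) (by linarith)
      nlinarith
  by_contra hcon
  -- all pairs of tight constraints are dependent
  have hdep : ∀ p ∈ cons, ∀ q ∈ cons, lin p a b c = p.2.2.2 → lin q a b c = q.2.2.2 →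
      p.2.1 * q.2.2.1 - p.2.2.1 * q.2.1 = 0 ∧ p.2.2.1 * q.1 - p.1 * q.2.2.1 = 0 ∧
      p.1 * q.2.1 - p.2.1 * q.1 = 0 := by
    intro p hp q hq h1 h2
    by_contra h3
    exact hcon (R_all p hp q hq a b c hK' h1 h2 h3)
  by_cases hex : ∃ p ∈ cons, lin p a b c = p.2.2.2 ∧ ¬ (p.1 = 0 ∧ p.2.1 = 0 ∧ p.2.2.1 = 0)
  · obtain ⟨p, hp, hp1, hp2⟩ := hex
    have hcast : ∀ q ∈ cons, lin q a b c = q.2.2.2 →
        (p.2.1 : ℝ) * q.2.2.1 - p.2.2.1 * q.2.1 = 0 ∧
        (p.2.2.1 : ℝ) * q.1 - p.1 * q.2.2.1 = 0 ∧ (p.1 : ℝ) * q.2.1 - p.2.1 * q.1 = 0 := by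
      intro q hq h2
      obtain ⟨e1, e2, e3⟩ := hdep p hp q hq hp1 h2
      exact ⟨by exact_mod_cast e1, by exact_mod_cast e2, by exact_mod_cast e3⟩
    have h1 := hno 0 (p.2.2.1) (-p.2.1) (fun q hq h2 => by
      obtain ⟨e1, e2, e3⟩ := hcast q hq h2
      unfold lin; linarith)
    have h2 := hno (-p.2.2.1) 0 p.1 (fun q hq h2 => by
      obtain ⟨e1, e2, e3⟩ := hcast q hq h2
      unfold lin; linarith)
    apply hp2
    have z1 : (p.1 : ℝ) = 0 := by nlinarith [sq_nonneg (p.1 : ℝ), sq_nonneg (p.2.2.1 : ℝ)]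
    have z2 : (p.2.1 : ℝ) = 0 := by nlinarith [sq_nonneg (p.2.1 : ℝ), sq_nonneg (p.2.2.1 : ℝ)]
    have z3 : (p.2.2.1 : ℝ) = 0 := by nlinarith [sq_nonneg (p.1 : ℝ), sq_nonneg (p.2.2.1 : ℝ)]
    exact ⟨by exact_mod_cast z1, by exact_mod_cast z2, by exact_mod_cast z3⟩
  · push Not at hex
    have := hno 1 0 0 (fun q hq h2 => by
      by_contra h3
      have h4 : ¬ (q.1 = 0) := by
        intro h5
        apply h3
        simp [lin, h5]
      have h5 := hex q hq h2
      exact h4 (by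
        by_contra h6
        exact absurd (h5) (by tauto)))
    norm_num at this

end Pool.Agent.R167.VN
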